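import Mathlib

/-!
# The 36 numerical cases
-/

set_option linter.unusedVariables false

namespace Pool.Agent.Lib_MP_d63bef_al

variable {K : Type*} [Field K] [CharZero K]

theorem case_0_0 (δ P Q a1 a3 c2 c3 : K) (hsq : ¬ IsSquare δ)
    (E1 : 17 + P + Q = δ) (E2 : 65 + 1 * P + 5 * Q = 3 * δ - 2)
    (E3 : 65 + 1 * P + 5 * Q = 3 * δ - 2)
    (E4 : 257 + 1 * P + 25 * Q + P * Q = δ ^ 2 / 4 + 9 / 2 * δ - 15 / 4)
    (D : 4 * (P - Q) ^ 2 + 4 * (4) * (P + Q) + (4) ^ 2 =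
      1024 * (a1 * c3 - a3 * c2) ^ 2) : False := by
  have hP : P = (1 / 2 : K) * δ + (-9 / 2 : K) := by linear_combination (5 / 4 : K) * E1 - (1 / 4 : K) * E2
  have hQ : Q = (1 / 2 : K) * δ + (-25 / 2 : K) := by linear_combination (-1 / 4 : K) * E1 + (1 / 4 : K) * E2
  -- good case
  rw [hP, hQ] at D
  exact hsq ⟨8 * (a1 * c3 - a3 * c2), by linear_combination (1 / 16 : K) * D⟩

theorem case_0_1 (δ P Q a1 a3 c2 c3 : K) (hsq : ¬ IsSquare δ)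
    (E1 : 8 + P + Q = δ) (E2 : 20 + 1 * P + 5 * Q = 3 * δ - 2)
    (E3 : 20 + 4 * P + 5 * Q = 3 * δ - 2)
    (E4 : 32 + 4 * P + 25 * Q + P * Q = δ ^ 2 / 4 + 9 / 2 * δ - 15 / 4)
    (D : 4 * (P - Q) ^ 2 + 4 * (-14) * (P + Q) + (-14) ^ 2 =
      1024 * (a1 * c3 - a3 * c2) ^ 2) : False := by
  have hP : P = (1 / 2 : K) * δ + (-9 / 2 : K) := by linear_combination (5 / 4 : K) * E1 - (1 / 4 : K) * E2
  have hQ : Q = (1 / 2 : K) * δ + (-7 / 2 : K) := by linear_combination (-1 / 4 : K) * E1 + (1 / 4 : K) * E2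
  have hd : δ = (9 : K) := by rw [hP, hQ] at E3; linear_combination (2 / 3 : K) * E3
  exact hsq ⟨3, by rw [hd]; norm_num⟩

theorem case_0_2 (δ P Q a1 a3 c2 c3 : K) (hsq : ¬ IsSquare δ)
    (E1 : 16 + P + Q = δ) (E2 : 64 + 1 * P + 5 * Q = 3 * δ - 2)
    (E3 : 64 + 1 * P + 4 * Q = 3 * δ - 2)
    (E4 : 256 + 1 * P + 20 * Q + P * Q = δ ^ 2 / 4 + 9 / 2 * δ - 15 / 4)
    (D : 4 * (P - Q) ^ 2 + 4 * (10) * (P + Q) + (10) ^ 2 =
      1024 * (a1 * c3 - a3 * c2) ^ 2) : False := by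
  have hP : P = (1 / 2 : K) * δ + (-7 / 2 : K) := by linear_combination (5 / 4 : K) * E1 - (1 / 4 : K) * E2
  have hQ : Q = (1 / 2 : K) * δ + (-25 / 2 : K) := by linear_combination (-1 / 4 : K) * E1 + (1 / 4 : K) * E2
  have hd : δ = (25 : K) := by rw [hP, hQ] at E3; linear_combination (-2 : K) * E3
  exact hsq ⟨5, by rw [hd]; norm_num⟩

theorem case_0_3 (δ P Q a1 a3 c2 c3 : K) (hsq : ¬ IsSquare δ)
    (E1 : 4 + P + Q = δ) (E2 : 4 + 1 * P + 5 * Q = 3 * δ - 2)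
    (E3 : 16 + 5 * P + 4 * Q = 3 * δ - 2)
    (E4 : 16 + 5 * P + 20 * Q + P * Q = δ ^ 2 / 4 + 9 / 2 * δ - 15 / 4)
    (D : 4 * (P - Q) ^ 2 + 4 * (-14) * (P + Q) + (-14) ^ 2 =
      1024 * (a1 * c3 - a3 * c2) ^ 2) : False := by
  have hP : P = (1 / 2 : K) * δ + (-7 / 2 : K) := by linear_combination (5 / 4 : K) * E1 - (1 / 4 : K) * E2
  have hQ : Q = (1 / 2 : K) * δ + (-1 / 2 : K) := by linear_combination (-1 / 4 : K) * E1 + (1 / 4 : K) * E2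
  have hd : δ = (1 : K) := by rw [hP, hQ] at E3; linear_combination (2 / 3 : K) * E3
  exact hsq ⟨1, by rw [hd]; norm_num⟩

theorem case_0_4 (δ P Q a1 a3 c2 c3 : K) (hsq : ¬ IsSquare δ)
    (E1 : 4 + P + Q = δ) (E2 : 16 + 1 * P + 5 * Q = 3 * δ - 2)
    (E3 : 4 + 4 * P + 1 * Q = 3 * δ - 2)
    (E4 : 16 + 4 * P + 5 * Q + P * Q = δ ^ 2 / 4 + 9 / 2 * δ - 15 / 4)
    (D : 4 * (P - Q) ^ 2 + 4 * (10) * (P + Q) + (10) ^ 2 =
      1024 * (a1 * c3 - a3 * c2) ^ 2) : False := by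
  have hP : P = (1 / 2 : K) * δ + (-1 / 2 : K) := by linear_combination (5 / 4 : K) * E1 - (1 / 4 : K) * E2
  have hQ : Q = (1 / 2 : K) * δ + (-7 / 2 : K) := by linear_combination (-1 / 4 : K) * E1 + (1 / 4 : K) * E2
  have hd : δ = (1 : K) := by rw [hP, hQ] at E3; linear_combination (-2 : K) * E3
  exact hsq ⟨1, by rw [hd]; norm_num⟩

theorem case_0_5 (δ P Q a1 a3 c2 c3 : K) (hsq : ¬ IsSquare δ)
    (E1 : 1 + P + Q = δ) (E2 : 1 + 1 * P + 5 * Q = 3 * δ - 2)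
    (E3 : 1 + 5 * P + 1 * Q = 3 * δ - 2)
    (E4 : 1 + 5 * P + 5 * Q + P * Q = δ ^ 2 / 4 + 9 / 2 * δ - 15 / 4)
    (D : 4 * (P - Q) ^ 2 + 4 * (4) * (P + Q) + (4) ^ 2 =
      1024 * (a1 * c3 - a3 * c2) ^ 2) : False := by
  have hP : P = (1 / 2 : K) * δ + (-1 / 2 : K) := by linear_combination (5 / 4 : K) * E1 - (1 / 4 : K) * E2
  have hQ : Q = (1 / 2 : K) * δ + (-1 / 2 : K) := by linear_combination (-1 / 4 : K) * E1 + (1 / 4 : K) * E2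
  -- good case
  rw [hP, hQ] at D
  exact hsq ⟨8 * (a1 * c3 - a3 * c2), by linear_combination (1 / 16 : K) * D⟩

theorem case_1_0 (δ P Q a1 a3 c2 c3 : K) (hsq : ¬ IsSquare δ)
    (E1 : 8 + P + Q = δ) (E2 : 20 + 4 * P + 5 * Q = 3 * δ - 2)
    (E3 : 20 + 1 * P + 5 * Q = 3 * δ - 2)
    (E4 : 32 + 4 * P + 25 * Q + P * Q = δ ^ 2 / 4 + 9 / 2 * δ - 15 / 4)
    (D : 4 * (P - Q) ^ 2 + 4 * (-14) * (P + Q) + (-14) ^ 2 =
      1024 * (a1 * c3 - a3 * c2) ^ 2) : False := by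
  have hP : P = (2 : K) * δ + (-18 : K) := by linear_combination (5 : K) * E1 - (1 : K) * E2
  have hQ : Q = (-1 : K) * δ + (10 : K) := by linear_combination (-4 : K) * E1 + (1 : K) * E2
  have hd : δ = (9 : K) := by rw [hP, hQ] at E3; linear_combination (-1 / 6 : K) * E3
  exact hsq ⟨3, by rw [hd]; norm_num⟩

theorem case_1_1 (δ P Q a1 a3 c2 c3 : K) (hsq : ¬ IsSquare δ)
    (E1 : 17 + P + Q = δ) (E2 : 65 + 4 * P + 5 * Q = 3 * δ - 2)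
    (E3 : 65 + 4 * P + 5 * Q = 3 * δ - 2)
    (E4 : 257 + 16 * P + 25 * Q + P * Q = δ ^ 2 / 4 + 9 / 2 * δ - 15 / 4)
    (D : 4 * (P - Q) ^ 2 + 4 * (49) * (P + Q) + (49) ^ 2 =
      1024 * (a1 * c3 - a3 * c2) ^ 2) : False := by
  have hP : P = (2 : K) * δ + (-18 : K) := by linear_combination (5 : K) * E1 - (1 : K) * E2
  have hQ : Q = (-1 : K) * δ + (1 : K) := by linear_combination (-4 : K) * E1 + (1 : K) * E2
  have hd : (δ - 1) * (δ - (9 : K)) = 0 := by rw [hP, hQ] at E4; linear_combination (-4 / 9 : K) * E4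
  rcases mul_eq_zero.mp hd with h | h
  · exact hsq ⟨1, by rw [sub_eq_zero.mp h]; norm_num⟩
  · exact hsq ⟨3, by rw [sub_eq_zero.mp h]; norm_num⟩

theorem case_1_2 (δ P Q a1 a3 c2 c3 : K) (hsq : ¬ IsSquare δ)
    (E1 : 4 + P + Q = δ) (E2 : 4 + 4 * P + 5 * Q = 3 * δ - 2)
    (E3 : 16 + 1 * P + 4 * Q = 3 * δ - 2)
    (E4 : 16 + 4 * P + 20 * Q + P * Q = δ ^ 2 / 4 + 9 / 2 * δ - 15 / 4)
    (D : 4 * (P - Q) ^ 2 + 4 * (-35) * (P + Q) + (-35) ^ 2 =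
      1024 * (a1 * c3 - a3 * c2) ^ 2) : False := by
  have hP : P = (2 : K) * δ + (-14 : K) := by linear_combination (5 : K) * E1 - (1 : K) * E2
  have hQ : Q = (-1 : K) * δ + (10 : K) := by linear_combination (-4 : K) * E1 + (1 : K) * E2
  have hd : δ = (44 / 5 : K) := by rw [hP, hQ] at E3; linear_combination (-1 / 5 : K) * E3
  -- d0=44/5
  rw [hP, hQ, hd] at E4
  norm_num at E4

theorem case_1_3 (δ P Q a1 a3 c2 c3 : K) (hsq : ¬ IsSquare δ)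
    (E1 : 16 + P + Q = δ) (E2 : 64 + 4 * P + 5 * Q = 3 * δ - 2)
    (E3 : 64 + 5 * P + 4 * Q = 3 * δ - 2)
    (E4 : 256 + 20 * P + 20 * Q + P * Q = δ ^ 2 / 4 + 9 / 2 * δ - 15 / 4)
    (D : 4 * (P - Q) ^ 2 + 4 * (49) * (P + Q) + (49) ^ 2 =
      1024 * (a1 * c3 - a3 * c2) ^ 2) : False := by
  have hP : P = (2 : K) * δ + (-14 : K) := by linear_combination (5 : K) * E1 - (1 : K) * E2
  have hQ : Q = (-1 : K) * δ + (-2 : K) := by linear_combination (-4 : K) * E1 + (1 : K) * E2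
  have hd : δ = (4 : K) := by rw [hP, hQ] at E3; linear_combination (1 / 3 : K) * E3
  exact hsq ⟨2, by rw [hd]; norm_num⟩

theorem case_1_4 (δ P Q a1 a3 c2 c3 : K) (hsq : ¬ IsSquare δ)
    (E1 : 1 + P + Q = δ) (E2 : 1 + 4 * P + 5 * Q = 3 * δ - 2)
    (E3 : 1 + 4 * P + 1 * Q = 3 * δ - 2)
    (E4 : 1 + 16 * P + 5 * Q + P * Q = δ ^ 2 / 4 + 9 / 2 * δ - 15 / 4)
    (D : 4 * (P - Q) ^ 2 + 4 * (-35) * (P + Q) + (-35) ^ 2 =
      1024 * (a1 * c3 - a3 * c2) ^ 2) : False := by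
  have hP : P = (2 : K) * δ + (-2 : K) := by linear_combination (5 : K) * E1 - (1 : K) * E2
  have hQ : Q = (-1 : K) * δ + (1 : K) := by linear_combination (-4 : K) * E1 + (1 : K) * E2
  have hd : δ = (1 : K) := by rw [hP, hQ] at E3; linear_combination (1 / 4 : K) * E3
  exact hsq ⟨1, by rw [hd]; norm_num⟩

theorem case_1_5 (δ P Q a1 a3 c2 c3 : K) (hsq : ¬ IsSquare δ)
    (E1 : 4 + P + Q = δ) (E2 : 16 + 4 * P + 5 * Q = 3 * δ - 2)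
    (E3 : 4 + 5 * P + 1 * Q = 3 * δ - 2)
    (E4 : 16 + 20 * P + 5 * Q + P * Q = δ ^ 2 / 4 + 9 / 2 * δ - 15 / 4)
    (D : 4 * (P - Q) ^ 2 + 4 * (-14) * (P + Q) + (-14) ^ 2 =
      1024 * (a1 * c3 - a3 * c2) ^ 2) : False := by
  have hP : P = (2 : K) * δ + (-2 : K) := by linear_combination (5 : K) * E1 - (1 : K) * E2
  have hQ : Q = (-1 : K) * δ + (-2 : K) := by linear_combination (-4 : K) * E1 + (1 : K) * E2
  have hd : δ = (1 : K) := by rw [hP, hQ] at E3; linear_combination (1 / 6 : K) * E3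
  exact hsq ⟨1, by rw [hd]; norm_num⟩

theorem case_2_0 (δ P Q a1 a3 c2 c3 : K) (hsq : ¬ IsSquare δ)
    (E1 : 16 + P + Q = δ) (E2 : 64 + 1 * P + 4 * Q = 3 * δ - 2)
    (E3 : 64 + 1 * P + 5 * Q = 3 * δ - 2)
    (E4 : 256 + 1 * P + 20 * Q + P * Q = δ ^ 2 / 4 + 9 / 2 * δ - 15 / 4)
    (D : 4 * (P - Q) ^ 2 + 4 * (10) * (P + Q) + (10) ^ 2 =
      1024 * (a1 * c3 - a3 * c2) ^ 2) : False := by
  have hP : P = (1 / 3 : K) * δ + (2 / 3 : K) := by linear_combination (4 / 3 : K) * E1 - (1 / 3 : K) * E2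
  have hQ : Q = (2 / 3 : K) * δ + (-50 / 3 : K) := by linear_combination (-1 / 3 : K) * E1 + (1 / 3 : K) * E2
  have hd : δ = (25 : K) := by rw [hP, hQ] at E3; linear_combination (3 / 2 : K) * E3
  exact hsq ⟨5, by rw [hd]; norm_num⟩

theorem case_2_1 (δ P Q a1 a3 c2 c3 : K) (hsq : ¬ IsSquare δ)
    (E1 : 4 + P + Q = δ) (E2 : 16 + 1 * P + 4 * Q = 3 * δ - 2)
    (E3 : 4 + 4 * P + 5 * Q = 3 * δ - 2)
    (E4 : 16 + 4 * P + 20 * Q + P * Q = δ ^ 2 / 4 + 9 / 2 * δ - 15 / 4)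
    (D : 4 * (P - Q) ^ 2 + 4 * (-35) * (P + Q) + (-35) ^ 2 =
      1024 * (a1 * c3 - a3 * c2) ^ 2) : False := by
  have hP : P = (1 / 3 : K) * δ + (2 / 3 : K) := by linear_combination (4 / 3 : K) * E1 - (1 / 3 : K) * E2
  have hQ : Q = (2 / 3 : K) * δ + (-14 / 3 : K) := by linear_combination (-1 / 3 : K) * E1 + (1 / 3 : K) * E2
  have hd : δ = (44 / 5 : K) := by rw [hP, hQ] at E3; linear_combination (3 / 5 : K) * E3
  -- d0=44/5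
  rw [hP, hQ, hd] at E4
  norm_num at E4

theorem case_2_2 (δ P Q a1 a3 c2 c3 : K) (hsq : ¬ IsSquare δ)
    (E1 : 17 + P + Q = δ) (E2 : 65 + 1 * P + 4 * Q = 3 * δ - 2)
    (E3 : 65 + 1 * P + 4 * Q = 3 * δ - 2)
    (E4 : 257 + 1 * P + 16 * Q + P * Q = δ ^ 2 / 4 + 9 / 2 * δ - 15 / 4)
    (D : 4 * (P - Q) ^ 2 + 4 * (25) * (P + Q) + (25) ^ 2 =
      1024 * (a1 * c3 - a3 * c2) ^ 2) : False := by
  have hP : P = (1 / 3 : K) * δ + (-1 / 3 : K) := by linear_combination (4 / 3 : K) * E1 - (1 / 3 : K) * E2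
  have hQ : Q = (2 / 3 : K) * δ + (-50 / 3 : K) := by linear_combination (-1 / 3 : K) * E1 + (1 / 3 : K) * E2
  have hd : (δ - 1) * (δ - (25 : K)) = 0 := by rw [hP, hQ] at E4; linear_combination (-36 : K) * E4
  rcases mul_eq_zero.mp hd with h | h
  · exact hsq ⟨1, by rw [sub_eq_zero.mp h]; norm_num⟩
  · exact hsq ⟨5, by rw [sub_eq_zero.mp h]; norm_num⟩

theorem case_2_3 (δ P Q a1 a3 c2 c3 : K) (hsq : ¬ IsSquare δ)
    (E1 : 1 + P + Q = δ) (E2 : 1 + 1 * P + 4 * Q = 3 * δ - 2)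
    (E3 : 1 + 5 * P + 4 * Q = 3 * δ - 2)
    (E4 : 1 + 5 * P + 16 * Q + P * Q = δ ^ 2 / 4 + 9 / 2 * δ - 15 / 4)
    (D : 4 * (P - Q) ^ 2 + 4 * (-35) * (P + Q) + (-35) ^ 2 =
      1024 * (a1 * c3 - a3 * c2) ^ 2) : False := by
  have hP : P = (1 / 3 : K) * δ + (-1 / 3 : K) := by linear_combination (4 / 3 : K) * E1 - (1 / 3 : K) * E2
  have hQ : Q = (2 / 3 : K) * δ + (-2 / 3 : K) := by linear_combination (-1 / 3 : K) * E1 + (1 / 3 : K) * E2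
  have hd : δ = (1 : K) := by rw [hP, hQ] at E3; linear_combination (3 / 4 : K) * E3
  exact hsq ⟨1, by rw [hd]; norm_num⟩

theorem case_2_4 (δ P Q a1 a3 c2 c3 : K) (hsq : ¬ IsSquare δ)
    (E1 : 8 + P + Q = δ) (E2 : 20 + 1 * P + 4 * Q = 3 * δ - 2)
    (E3 : 20 + 4 * P + 1 * Q = 3 * δ - 2)
    (E4 : 32 + 4 * P + 4 * Q + P * Q = δ ^ 2 / 4 + 9 / 2 * δ - 15 / 4)
    (D : 4 * (P - Q) ^ 2 + 4 * (25) * (P + Q) + (25) ^ 2 =
      1024 * (a1 * c3 - a3 * c2) ^ 2) : False := by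
  have hP : P = (1 / 3 : K) * δ + (-10 / 3 : K) := by linear_combination (4 / 3 : K) * E1 - (1 / 3 : K) * E2
  have hQ : Q = (2 / 3 : K) * δ + (-14 / 3 : K) := by linear_combination (-1 / 3 : K) * E1 + (1 / 3 : K) * E2
  have hd : δ = (4 : K) := by rw [hP, hQ] at E3; linear_combination (-1 : K) * E3
  exact hsq ⟨2, by rw [hd]; norm_num⟩

theorem case_2_5 (δ P Q a1 a3 c2 c3 : K) (hsq : ¬ IsSquare δ)
    (E1 : 4 + P + Q = δ) (E2 : 4 + 1 * P + 4 * Q = 3 * δ - 2)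
    (E3 : 16 + 5 * P + 1 * Q = 3 * δ - 2)
    (E4 : 16 + 5 * P + 4 * Q + P * Q = δ ^ 2 / 4 + 9 / 2 * δ - 15 / 4)
    (D : 4 * (P - Q) ^ 2 + 4 * (10) * (P + Q) + (10) ^ 2 =
      1024 * (a1 * c3 - a3 * c2) ^ 2) : False := by
  have hP : P = (1 / 3 : K) * δ + (-10 / 3 : K) := by linear_combination (4 / 3 : K) * E1 - (1 / 3 : K) * E2
  have hQ : Q = (2 / 3 : K) * δ + (-2 / 3 : K) := by linear_combination (-1 / 3 : K) * E1 + (1 / 3 : K) * E2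
  have hd : δ = (1 : K) := by rw [hP, hQ] at E3; linear_combination (-3 / 2 : K) * E3
  exact hsq ⟨1, by rw [hd]; norm_num⟩

theorem case_3_0 (δ P Q a1 a3 c2 c3 : K) (hsq : ¬ IsSquare δ)
    (E1 : 4 + P + Q = δ) (E2 : 16 + 5 * P + 4 * Q = 3 * δ - 2)
    (E3 : 4 + 1 * P + 5 * Q = 3 * δ - 2)
    (E4 : 16 + 5 * P + 20 * Q + P * Q = δ ^ 2 / 4 + 9 / 2 * δ - 15 / 4)
    (D : 4 * (P - Q) ^ 2 + 4 * (-14) * (P + Q) + (-14) ^ 2 =
      1024 * (a1 * c3 - a3 * c2) ^ 2) : False := by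
  have hP : P = (-1 : K) * δ + (-2 : K) := by linear_combination (-4 : K) * E1 - (-1 : K) * E2
  have hQ : Q = (2 : K) * δ + (-2 : K) := by linear_combination (5 : K) * E1 + (-1 : K) * E2
  have hd : δ = (1 : K) := by rw [hP, hQ] at E3; linear_combination (1 / 6 : K) * E3
  exact hsq ⟨1, by rw [hd]; norm_num⟩

theorem case_3_1 (δ P Q a1 a3 c2 c3 : K) (hsq : ¬ IsSquare δ)
    (E1 : 16 + P + Q = δ) (E2 : 64 + 5 * P + 4 * Q = 3 * δ - 2)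
    (E3 : 64 + 4 * P + 5 * Q = 3 * δ - 2)
    (E4 : 256 + 20 * P + 20 * Q + P * Q = δ ^ 2 / 4 + 9 / 2 * δ - 15 / 4)
    (D : 4 * (P - Q) ^ 2 + 4 * (49) * (P + Q) + (49) ^ 2 =
      1024 * (a1 * c3 - a3 * c2) ^ 2) : False := by
  have hP : P = (-1 : K) * δ + (-2 : K) := by linear_combination (-4 : K) * E1 - (-1 : K) * E2
  have hQ : Q = (2 : K) * δ + (-14 : K) := by linear_combination (5 : K) * E1 + (-1 : K) * E2
  have hd : δ = (4 : K) := by rw [hP, hQ] at E3; linear_combination (1 / 3 : K) * E3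
  exact hsq ⟨2, by rw [hd]; norm_num⟩

theorem case_3_2 (δ P Q a1 a3 c2 c3 : K) (hsq : ¬ IsSquare δ)
    (E1 : 1 + P + Q = δ) (E2 : 1 + 5 * P + 4 * Q = 3 * δ - 2)
    (E3 : 1 + 1 * P + 4 * Q = 3 * δ - 2)
    (E4 : 1 + 5 * P + 16 * Q + P * Q = δ ^ 2 / 4 + 9 / 2 * δ - 15 / 4)
    (D : 4 * (P - Q) ^ 2 + 4 * (-35) * (P + Q) + (-35) ^ 2 =
      1024 * (a1 * c3 - a3 * c2) ^ 2) : False := by
  have hP : P = (-1 : K) * δ + (1 : K) := by linear_combination (-4 : K) * E1 - (-1 : K) * E2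
  have hQ : Q = (2 : K) * δ + (-2 : K) := by linear_combination (5 : K) * E1 + (-1 : K) * E2
  have hd : δ = (1 : K) := by rw [hP, hQ] at E3; linear_combination (1 / 4 : K) * E3
  exact hsq ⟨1, by rw [hd]; norm_num⟩

theorem case_3_3 (δ P Q a1 a3 c2 c3 : K) (hsq : ¬ IsSquare δ)
    (E1 : 17 + P + Q = δ) (E2 : 65 + 5 * P + 4 * Q = 3 * δ - 2)
    (E3 : 65 + 5 * P + 4 * Q = 3 * δ - 2)
    (E4 : 257 + 25 * P + 16 * Q + P * Q = δ ^ 2 / 4 + 9 / 2 * δ - 15 / 4)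
    (D : 4 * (P - Q) ^ 2 + 4 * (49) * (P + Q) + (49) ^ 2 =
      1024 * (a1 * c3 - a3 * c2) ^ 2) : False := by
  have hP : P = (-1 : K) * δ + (1 : K) := by linear_combination (-4 : K) * E1 - (-1 : K) * E2
  have hQ : Q = (2 : K) * δ + (-18 : K) := by linear_combination (5 : K) * E1 + (-1 : K) * E2
  have hd : (δ - 1) * (δ - (9 : K)) = 0 := by rw [hP, hQ] at E4; linear_combination (-4 / 9 : K) * E4
  rcases mul_eq_zero.mp hd with h | h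
  · exact hsq ⟨1, by rw [sub_eq_zero.mp h]; norm_num⟩
  · exact hsq ⟨3, by rw [sub_eq_zero.mp h]; norm_num⟩

theorem case_3_4 (δ P Q a1 a3 c2 c3 : K) (hsq : ¬ IsSquare δ)
    (E1 : 4 + P + Q = δ) (E2 : 4 + 5 * P + 4 * Q = 3 * δ - 2)
    (E3 : 16 + 4 * P + 1 * Q = 3 * δ - 2)
    (E4 : 16 + 20 * P + 4 * Q + P * Q = δ ^ 2 / 4 + 9 / 2 * δ - 15 / 4)
    (D : 4 * (P - Q) ^ 2 + 4 * (-35) * (P + Q) + (-35) ^ 2 =
      1024 * (a1 * c3 - a3 * c2) ^ 2) : False := by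
  have hP : P = (-1 : K) * δ + (10 : K) := by linear_combination (-4 : K) * E1 - (-1 : K) * E2
  have hQ : Q = (2 : K) * δ + (-14 : K) := by linear_combination (5 : K) * E1 + (-1 : K) * E2
  have hd : δ = (44 / 5 : K) := by rw [hP, hQ] at E3; linear_combination (-1 / 5 : K) * E3
  -- d0=44/5
  rw [hP, hQ, hd] at E4
  norm_num at E4

theorem case_3_5 (δ P Q a1 a3 c2 c3 : K) (hsq : ¬ IsSquare δ)
    (E1 : 8 + P + Q = δ) (E2 : 20 + 5 * P + 4 * Q = 3 * δ - 2)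
    (E3 : 20 + 5 * P + 1 * Q = 3 * δ - 2)
    (E4 : 32 + 25 * P + 4 * Q + P * Q = δ ^ 2 / 4 + 9 / 2 * δ - 15 / 4)
    (D : 4 * (P - Q) ^ 2 + 4 * (-14) * (P + Q) + (-14) ^ 2 =
      1024 * (a1 * c3 - a3 * c2) ^ 2) : False := by
  have hP : P = (-1 : K) * δ + (10 : K) := by linear_combination (-4 : K) * E1 - (-1 : K) * E2
  have hQ : Q = (2 : K) * δ + (-18 : K) := by linear_combination (5 : K) * E1 + (-1 : K) * E2
  have hd : δ = (9 : K) := by rw [hP, hQ] at E3; linear_combination (-1 / 6 : K) * E3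
  exact hsq ⟨3, by rw [hd]; norm_num⟩

theorem case_4_0 (δ P Q a1 a3 c2 c3 : K) (hsq : ¬ IsSquare δ)
    (E1 : 4 + P + Q = δ) (E2 : 4 + 4 * P + 1 * Q = 3 * δ - 2)
    (E3 : 16 + 1 * P + 5 * Q = 3 * δ - 2)
    (E4 : 16 + 4 * P + 5 * Q + P * Q = δ ^ 2 / 4 + 9 / 2 * δ - 15 / 4)
    (D : 4 * (P - Q) ^ 2 + 4 * (10) * (P + Q) + (10) ^ 2 =
      1024 * (a1 * c3 - a3 * c2) ^ 2) : False := by
  have hP : P = (2 / 3 : K) * δ + (-2 / 3 : K) := by linear_combination (-1 / 3 : K) * E1 - (-1 / 3 : K) * E2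
  have hQ : Q = (1 / 3 : K) * δ + (-10 / 3 : K) := by linear_combination (4 / 3 : K) * E1 + (-1 / 3 : K) * E2
  have hd : δ = (1 : K) := by rw [hP, hQ] at E3; linear_combination (-3 / 2 : K) * E3
  exact hsq ⟨1, by rw [hd]; norm_num⟩

theorem case_4_1 (δ P Q a1 a3 c2 c3 : K) (hsq : ¬ IsSquare δ)
    (E1 : 1 + P + Q = δ) (E2 : 1 + 4 * P + 1 * Q = 3 * δ - 2)
    (E3 : 1 + 4 * P + 5 * Q = 3 * δ - 2)
    (E4 : 1 + 16 * P + 5 * Q + P * Q = δ ^ 2 / 4 + 9 / 2 * δ - 15 / 4)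
    (D : 4 * (P - Q) ^ 2 + 4 * (-35) * (P + Q) + (-35) ^ 2 =
      1024 * (a1 * c3 - a3 * c2) ^ 2) : False := by
  have hP : P = (2 / 3 : K) * δ + (-2 / 3 : K) := by linear_combination (-1 / 3 : K) * E1 - (-1 / 3 : K) * E2
  have hQ : Q = (1 / 3 : K) * δ + (-1 / 3 : K) := by linear_combination (4 / 3 : K) * E1 + (-1 / 3 : K) * E2
  have hd : δ = (1 : K) := by rw [hP, hQ] at E3; linear_combination (3 / 4 : K) * E3
  exact hsq ⟨1, by rw [hd]; norm_num⟩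

theorem case_4_2 (δ P Q a1 a3 c2 c3 : K) (hsq : ¬ IsSquare δ)
    (E1 : 8 + P + Q = δ) (E2 : 20 + 4 * P + 1 * Q = 3 * δ - 2)
    (E3 : 20 + 1 * P + 4 * Q = 3 * δ - 2)
    (E4 : 32 + 4 * P + 4 * Q + P * Q = δ ^ 2 / 4 + 9 / 2 * δ - 15 / 4)
    (D : 4 * (P - Q) ^ 2 + 4 * (25) * (P + Q) + (25) ^ 2 =
      1024 * (a1 * c3 - a3 * c2) ^ 2) : False := by
  have hP : P = (2 / 3 : K) * δ + (-14 / 3 : K) := by linear_combination (-1 / 3 : K) * E1 - (-1 / 3 : K) * E2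
  have hQ : Q = (1 / 3 : K) * δ + (-10 / 3 : K) := by linear_combination (4 / 3 : K) * E1 + (-1 / 3 : K) * E2
  have hd : δ = (4 : K) := by rw [hP, hQ] at E3; linear_combination (-1 : K) * E3
  exact hsq ⟨2, by rw [hd]; norm_num⟩

theorem case_4_3 (δ P Q a1 a3 c2 c3 : K) (hsq : ¬ IsSquare δ)
    (E1 : 4 + P + Q = δ) (E2 : 16 + 4 * P + 1 * Q = 3 * δ - 2)
    (E3 : 4 + 5 * P + 4 * Q = 3 * δ - 2)
    (E4 : 16 + 20 * P + 4 * Q + P * Q = δ ^ 2 / 4 + 9 / 2 * δ - 15 / 4)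
    (D : 4 * (P - Q) ^ 2 + 4 * (-35) * (P + Q) + (-35) ^ 2 =
      1024 * (a1 * c3 - a3 * c2) ^ 2) : False := by
  have hP : P = (2 / 3 : K) * δ + (-14 / 3 : K) := by linear_combination (-1 / 3 : K) * E1 - (-1 / 3 : K) * E2
  have hQ : Q = (1 / 3 : K) * δ + (2 / 3 : K) := by linear_combination (4 / 3 : K) * E1 + (-1 / 3 : K) * E2
  have hd : δ = (44 / 5 : K) := by rw [hP, hQ] at E3; linear_combination (3 / 5 : K) * E3
  -- d0=44/5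
  rw [hP, hQ, hd] at E4
  norm_num at E4

theorem case_4_4 (δ P Q a1 a3 c2 c3 : K) (hsq : ¬ IsSquare δ)
    (E1 : 17 + P + Q = δ) (E2 : 65 + 4 * P + 1 * Q = 3 * δ - 2)
    (E3 : 65 + 4 * P + 1 * Q = 3 * δ - 2)
    (E4 : 257 + 16 * P + 1 * Q + P * Q = δ ^ 2 / 4 + 9 / 2 * δ - 15 / 4)
    (D : 4 * (P - Q) ^ 2 + 4 * (25) * (P + Q) + (25) ^ 2 =
      1024 * (a1 * c3 - a3 * c2) ^ 2) : False := by
  have hP : P = (2 / 3 : K) * δ + (-50 / 3 : K) := by linear_combination (-1 / 3 : K) * E1 - (-1 / 3 : K) * E2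
  have hQ : Q = (1 / 3 : K) * δ + (-1 / 3 : K) := by linear_combination (4 / 3 : K) * E1 + (-1 / 3 : K) * E2
  have hd : (δ - 1) * (δ - (25 : K)) = 0 := by rw [hP, hQ] at E4; linear_combination (-36 : K) * E4
  rcases mul_eq_zero.mp hd with h | h
  · exact hsq ⟨1, by rw [sub_eq_zero.mp h]; norm_num⟩
  · exact hsq ⟨5, by rw [sub_eq_zero.mp h]; norm_num⟩

theorem case_4_5 (δ P Q a1 a3 c2 c3 : K) (hsq : ¬ IsSquare δ)
    (E1 : 16 + P + Q = δ) (E2 : 64 + 4 * P + 1 * Q = 3 * δ - 2)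
    (E3 : 64 + 5 * P + 1 * Q = 3 * δ - 2)
    (E4 : 256 + 20 * P + 1 * Q + P * Q = δ ^ 2 / 4 + 9 / 2 * δ - 15 / 4)
    (D : 4 * (P - Q) ^ 2 + 4 * (10) * (P + Q) + (10) ^ 2 =
      1024 * (a1 * c3 - a3 * c2) ^ 2) : False := by
  have hP : P = (2 / 3 : K) * δ + (-50 / 3 : K) := by linear_combination (-1 / 3 : K) * E1 - (-1 / 3 : K) * E2
  have hQ : Q = (1 / 3 : K) * δ + (2 / 3 : K) := by linear_combination (4 / 3 : K) * E1 + (-1 / 3 : K) * E2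
  have hd : δ = (25 : K) := by rw [hP, hQ] at E3; linear_combination (3 / 2 : K) * E3
  exact hsq ⟨5, by rw [hd]; norm_num⟩

theorem case_5_0 (δ P Q a1 a3 c2 c3 : K) (hsq : ¬ IsSquare δ)
    (E1 : 1 + P + Q = δ) (E2 : 1 + 5 * P + 1 * Q = 3 * δ - 2)
    (E3 : 1 + 1 * P + 5 * Q = 3 * δ - 2)
    (E4 : 1 + 5 * P + 5 * Q + P * Q = δ ^ 2 / 4 + 9 / 2 * δ - 15 / 4)
    (D : 4 * (P - Q) ^ 2 + 4 * (4) * (P + Q) + (4) ^ 2 =
      1024 * (a1 * c3 - a3 * c2) ^ 2) : False := by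
  have hP : P = (1 / 2 : K) * δ + (-1 / 2 : K) := by linear_combination (-1 / 4 : K) * E1 - (-1 / 4 : K) * E2
  have hQ : Q = (1 / 2 : K) * δ + (-1 / 2 : K) := by linear_combination (5 / 4 : K) * E1 + (-1 / 4 : K) * E2
  -- good case
  rw [hP, hQ] at D
  exact hsq ⟨8 * (a1 * c3 - a3 * c2), by linear_combination (1 / 16 : K) * D⟩

theorem case_5_1 (δ P Q a1 a3 c2 c3 : K) (hsq : ¬ IsSquare δ)
    (E1 : 4 + P + Q = δ) (E2 : 4 + 5 * P + 1 * Q = 3 * δ - 2)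
    (E3 : 16 + 4 * P + 5 * Q = 3 * δ - 2)
    (E4 : 16 + 20 * P + 5 * Q + P * Q = δ ^ 2 / 4 + 9 / 2 * δ - 15 / 4)
    (D : 4 * (P - Q) ^ 2 + 4 * (-14) * (P + Q) + (-14) ^ 2 =
      1024 * (a1 * c3 - a3 * c2) ^ 2) : False := by
  have hP : P = (1 / 2 : K) * δ + (-1 / 2 : K) := by linear_combination (-1 / 4 : K) * E1 - (-1 / 4 : K) * E2
  have hQ : Q = (1 / 2 : K) * δ + (-7 / 2 : K) := by linear_combination (5 / 4 : K) * E1 + (-1 / 4 : K) * E2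
  have hd : δ = (1 : K) := by rw [hP, hQ] at E3; linear_combination (2 / 3 : K) * E3
  exact hsq ⟨1, by rw [hd]; norm_num⟩

theorem case_5_2 (δ P Q a1 a3 c2 c3 : K) (hsq : ¬ IsSquare δ)
    (E1 : 4 + P + Q = δ) (E2 : 16 + 5 * P + 1 * Q = 3 * δ - 2)
    (E3 : 4 + 1 * P + 4 * Q = 3 * δ - 2)
    (E4 : 16 + 5 * P + 4 * Q + P * Q = δ ^ 2 / 4 + 9 / 2 * δ - 15 / 4)
    (D : 4 * (P - Q) ^ 2 + 4 * (10) * (P + Q) + (10) ^ 2 =
      1024 * (a1 * c3 - a3 * c2) ^ 2) : False := by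
  have hP : P = (1 / 2 : K) * δ + (-7 / 2 : K) := by linear_combination (-1 / 4 : K) * E1 - (-1 / 4 : K) * E2
  have hQ : Q = (1 / 2 : K) * δ + (-1 / 2 : K) := by linear_combination (5 / 4 : K) * E1 + (-1 / 4 : K) * E2
  have hd : δ = (1 : K) := by rw [hP, hQ] at E3; linear_combination (-2 : K) * E3
  exact hsq ⟨1, by rw [hd]; norm_num⟩

theorem case_5_3 (δ P Q a1 a3 c2 c3 : K) (hsq : ¬ IsSquare δ)
    (E1 : 8 + P + Q = δ) (E2 : 20 + 5 * P + 1 * Q = 3 * δ - 2)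
    (E3 : 20 + 5 * P + 4 * Q = 3 * δ - 2)
    (E4 : 32 + 25 * P + 4 * Q + P * Q = δ ^ 2 / 4 + 9 / 2 * δ - 15 / 4)
    (D : 4 * (P - Q) ^ 2 + 4 * (-14) * (P + Q) + (-14) ^ 2 =
      1024 * (a1 * c3 - a3 * c2) ^ 2) : False := by
  have hP : P = (1 / 2 : K) * δ + (-7 / 2 : K) := by linear_combination (-1 / 4 : K) * E1 - (-1 / 4 : K) * E2
  have hQ : Q = (1 / 2 : K) * δ + (-9 / 2 : K) := by linear_combination (5 / 4 : K) * E1 + (-1 / 4 : K) * E2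
  have hd : δ = (9 : K) := by rw [hP, hQ] at E3; linear_combination (2 / 3 : K) * E3
  exact hsq ⟨3, by rw [hd]; norm_num⟩

theorem case_5_4 (δ P Q a1 a3 c2 c3 : K) (hsq : ¬ IsSquare δ)
    (E1 : 16 + P + Q = δ) (E2 : 64 + 5 * P + 1 * Q = 3 * δ - 2)
    (E3 : 64 + 4 * P + 1 * Q = 3 * δ - 2)
    (E4 : 256 + 20 * P + 1 * Q + P * Q = δ ^ 2 / 4 + 9 / 2 * δ - 15 / 4)
    (D : 4 * (P - Q) ^ 2 + 4 * (10) * (P + Q) + (10) ^ 2 =
      1024 * (a1 * c3 - a3 * c2) ^ 2) : False := by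
  have hP : P = (1 / 2 : K) * δ + (-25 / 2 : K) := by linear_combination (-1 / 4 : K) * E1 - (-1 / 4 : K) * E2
  have hQ : Q = (1 / 2 : K) * δ + (-7 / 2 : K) := by linear_combination (5 / 4 : K) * E1 + (-1 / 4 : K) * E2
  have hd : δ = (25 : K) := by rw [hP, hQ] at E3; linear_combination (-2 : K) * E3
  exact hsq ⟨5, by rw [hd]; norm_num⟩

theorem case_5_5 (δ P Q a1 a3 c2 c3 : K) (hsq : ¬ IsSquare δ)
    (E1 : 17 + P + Q = δ) (E2 : 65 + 5 * P + 1 * Q = 3 * δ - 2)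
    (E3 : 65 + 5 * P + 1 * Q = 3 * δ - 2)
    (E4 : 257 + 25 * P + 1 * Q + P * Q = δ ^ 2 / 4 + 9 / 2 * δ - 15 / 4)
    (D : 4 * (P - Q) ^ 2 + 4 * (4) * (P + Q) + (4) ^ 2 =
      1024 * (a1 * c3 - a3 * c2) ^ 2) : False := by
  have hP : P = (1 / 2 : K) * δ + (-25 / 2 : K) := by linear_combination (-1 / 4 : K) * E1 - (-1 / 4 : K) * E2
  have hQ : Q = (1 / 2 : K) * δ + (-9 / 2 : K) := by linear_combination (5 / 4 : K) * E1 + (-1 / 4 : K) * E2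
  -- good case
  rw [hP, hQ] at D
  exact hsq ⟨8 * (a1 * c3 - a3 * c2), by linear_combination (1 / 16 : K) * D⟩

end Pool.Agent.Lib_MP_d63bef_al
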