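import Mathlib

/-!
# Leonard pairs and irreducible `sl2`-modules in the equitable presentation
-/

namespace Pool.Agent.Lib_MP_d63bef_al

open Module

/-- A square matrix is irreducible tridiagonal: it is tridiagonal and every entry on the
subdiagonal and on the superdiagonal is nonzero. -/
structure IsIrredTridiag {K : Type*} [Field K] {n : ℕ} (M : Matrix (Fin n) (Fin n) K) :
    Prop where
  zero_off : ∀ i j : Fin n, (i : ℕ) + 1 < j ∨ (j : ℕ) + 1 < i → M i j = 0
  ne_zero : ∀ i j : Fin n, (i : ℕ) + 1 = j ∨ (j : ℕ) + 1 = i → M i j ≠ 0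

/-- In the basis `b` the map `A` is represented by an irreducible tridiagonal matrix and the map
`B` by the diagonal matrix with diagonal entries `θ 0, ..., θ (n - 1)`. -/
structure TridiagDiag {K V : Type*} [Field K] [AddCommGroup V] [Module K V] {n : ℕ}
    (b : Basis (Fin n) K V) (A B : V →ₗ[K] V) (θ : ℕ → K) : Prop where
  tridiag : ∃ M : Matrix (Fin n) (Fin n) K, IsIrredTridiag M ∧ ∀ j, A (b j) = ∑ i, M i j • b i
  diag : ∀ j : Fin n, B (b j) = θ j • b j

/-- `(A, B)` is a Leonard pair of diameter `d` on `V` (so `dim V = d + 1`): some basis of `V`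
makes `A` irreducible tridiagonal and `B` diagonal, and some basis of `V` makes `B` irreducible
tridiagonal and `A` diagonal. -/
structure IsLeonardPair {K V : Type*} [Field K] [AddCommGroup V] [Module K V] (d : ℕ)
    (A B : V →ₗ[K] V) : Prop where
  fst : ∃ (b : Basis (Fin (d + 1)) K V) (θ : ℕ → K), TridiagDiag b A B θ
  snd : ∃ (b : Basis (Fin (d + 1)) K V) (θ : ℕ → K), TridiagDiag b B A θ

/-- The condition `β = 2`: whenever `θ_0, ..., θ_d` are the diagonal entries of `A` in a basis
that makes `B` irreducible tridiagonal and `A` diagonal, one has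
`θ_{i-2} - θ_{i+1} = 3 (θ_{i-1} - θ_i)` for `2 ≤ i ≤ d - 1` (written here with `i = k + 2`). -/
structure BetaEqTwo {K V : Type*} [Field K] [AddCommGroup V] [Module K V] (d : ℕ)
    (A B : V →ₗ[K] V) : Prop where
  eq : ∀ (b : Basis (Fin (d + 1)) K V) (θ : ℕ → K), TridiagDiag b B A θ →
    ∀ k : ℕ, k + 3 ≤ d → θ k - θ (k + 3) = 3 * (θ (k + 1) - θ (k + 2))

/-- `x, y, z` are the operators by which the equitable basis of `sl2` acts in an irreducible
`sl2`-module structure on `V`: they satisfy `[x,y] = 2x + 2y`, `[y,z] = 2y + 2z`,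
`[z,x] = 2z + 2x`, and `V ≠ 0` has no subspace other than `0` and `V` that is stable under `x`,
`y` and `z`. -/
structure IsIrredEquitable {K V : Type*} [Field K] [AddCommGroup V] [Module K V]
    (x y z : V →ₗ[K] V) : Prop where
  xy : ∀ v, x (y v) - y (x v) = (2 : K) • x v + (2 : K) • y v
  yz : ∀ v, y (z v) - z (y v) = (2 : K) • y v + (2 : K) • z v
  zx : ∀ v, z (x v) - x (z v) = (2 : K) • z v + (2 : K) • x v
  nontrivial : ∃ v : V, v ≠ 0
  irred : ∀ W : Submodule K V, (∀ v ∈ W, x v ∈ W) → (∀ v ∈ W, y v ∈ W) → (∀ v ∈ W, z v ∈ W) →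
    W = ⊥ ∨ W = ⊤

/-- There is an irreducible `sl2`-module structure on `V` such that `A` acts as a linear
combination of `I, x, y, xy` and `B` as a linear combination of `I, y, z, yz`. -/
structure HasSl2Form {K V : Type*} [Field K] [AddCommGroup V] [Module K V] (A B : V →ₗ[K] V) :
    Prop where
  ex : ∃ x y z : V →ₗ[K] V, IsIrredEquitable x y z ∧
    (∃ a₀ a₁ a₂ a₃ : K, ∀ v, A v = a₀ • v + a₁ • x v + a₂ • y v + a₃ • x (y v)) ∧
    (∃ b₀ b₁ b₂ b₃ : K, ∀ v, B v = b₀ • v + b₁ • y v + b₂ • z v + b₃ • y (z v))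

end Pool.Agent.Lib_MP_d63bef_al
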