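import Mathlib

/-!
# Elementary representation theory of the equitable presentation of `sl2`
-/

namespace Pool.Agent.Lib_MP_d63bef_al

open Module

variable {K V : Type*} [Field K] [CharZero K] [AddCommGroup V] [Module K V]

theorem nilp_up [FiniteDimensional K V] (y R : End K V) (hR : y * R - R * y = 2 • R) :
    ∃ N : ℕ, R ^ N = 0 := by
  by_contra hcon
  push Not at hcon
  let ad : End K (End K V) := LinearMap.mulLeft K y - LinearMap.mulRight K y
  have h1 : ∀ k : ℕ, ad (R ^ k) = ((2 * k : ℕ) : K) • R ^ k := by
    intro k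
    induction k with
    | zero => simp [ad]
    | succ k ih =>
      have e : ad (R ^ (k + 1)) = ad (R ^ k) * R + R ^ k * (y * R - R * y) := by
        simp only [ad, LinearMap.sub_apply, LinearMap.mulLeft_apply, LinearMap.mulRight_apply,
          pow_succ]
        noncomm_ring
      rw [e, ih, hR, pow_succ]
      push_cast
      rw [smul_mul_assoc, mul_smul_comm, ← Nat.cast_smul_eq_nsmul K, ← add_smul]
      congr 1
      push_cast
      ring
  have h2 : LinearIndependent K (fun k : ℕ => R ^ k) := by
    refine End.eigenvectors_linearIndependent' ad (fun k : ℕ => ((2 * k : ℕ) : K)) ?_ _ ?_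
    · intro a b hab
      simp only at hab
      have : (2 * a : ℕ) = 2 * b := by exact_mod_cast hab
      omega
    · intro k
      exact ⟨End.mem_eigenspace_iff.mpr (h1 k), hcon k⟩
  have h3 := h2.finite
  exact not_finite ℕ

theorem nilp_down [FiniteDimensional K V] (y L : End K V) (hL : y * L - L * y = -(2 • L)) :
    ∃ N : ℕ, L ^ N = 0 := by
  apply nilp_up (-y) L
  rw [neg_mul, mul_neg, sub_neg_eq_add, neg_add_eq_sub]
  rw [← neg_sub, hL, neg_neg]

variable {y L R : End K V}

theorem y_L_pow (hL : y * L - L * y = -(2 • L)) (k : ℕ) (v : V) :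
    y ((L ^ k) v) = (L ^ k) (y v) - (2 * k : K) • (L ^ k) v := by
  induction k with
  | zero => simp
  | succ k ih =>
    have e : ∀ u : V, y (L u) = L (y u) - (2 : K) • L u := by
      intro u
      have := congrArg (fun T : End K V => T u) hL
      simp only [LinearMap.sub_apply, Module.End.mul_apply, LinearMap.neg_apply,
        LinearMap.smul_apply] at this
      rw [sub_eq_iff_eq_add] at this
      rw [this, ← Nat.cast_smul_eq_nsmul K]
      push_cast
      abel
    rw [pow_succ', Module.End.mul_apply, Module.End.mul_apply, e, ih, map_sub, map_smul]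
    push_cast
    module

theorem R_L_pow (hL : y * L - L * y = -(2 • L)) (hRL : R * L - L * R = -(4 • y)) (k : ℕ) (v : V)
    (hv : R v = 0) :
    R ((L ^ (k + 1)) v) = (-4 * (k + 1) : K) • (L ^ k) (y v - (k : K) • v) := by
  have e : ∀ u : V, R (L u) = L (R u) - (4 : K) • y u := by
    intro u
    have := congrArg (fun T : End K V => T u) hRL
    simp only [LinearMap.sub_apply, Module.End.mul_apply, LinearMap.neg_apply,
      LinearMap.smul_apply] at this
    rw [sub_eq_iff_eq_add] at this
    rw [this, ← Nat.cast_smul_eq_nsmul K]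
    push_cast
    abel
  induction k with
  | zero =>
    simp only [zero_add, pow_one, e, hv, map_zero, pow_zero, Module.End.one_apply]
    push_cast
    module
  | succ k ih =>
    rw [pow_succ' L (k + 1), Module.End.mul_apply, e, ih, y_L_pow hL, map_smul,
      ← Module.End.mul_apply, ← pow_succ']
    simp only [map_sub, map_smul]
    push_cast
    module

theorem exists_primitive [FiniteDimensional K V] [Nontrivial V] (hL : y * L - L * y = -(2 • L))
    (hR : y * R - R * y = 2 • R) (hRL : R * L - L * R = -(4 • y)) :
    ∃ w : V, w ≠ 0 ∧ R w = 0 ∧ ∃ m : ℕ, y w = (m : K) • w := by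
  obtain ⟨M, hM⟩ := nilp_up y R hR
  obtain ⟨N, hN⟩ := nilp_down y L hL
  -- the kernel of `R` is nonzero
  have hker : ∃ v : V, v ≠ 0 ∧ R v = 0 := by
    by_contra hcon
    push Not at hcon
    have h1 : ∀ k : ℕ, ∀ v : V, v ≠ 0 → (R ^ k) v ≠ 0 := by
      intro k
      induction k with
      | zero => intro v hv; simpa using hv
      | succ k ih =>
        intro v hv
        rw [pow_succ', Module.End.mul_apply]
        intro h0
        exact hcon _ (ih v hv) h0
    obtain ⟨v, hv⟩ := exists_ne (0 : V)
    exact h1 M v hv (by rw [hM]; rfl)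
  -- the kernel of `R` is stable under `y`
  have hstab : ∀ v : V, R v = 0 → R (y v) = 0 := by
    intro v hv
    have := congrArg (fun T : End K V => T v) hR
    simp only [LinearMap.sub_apply, Module.End.mul_apply, LinearMap.smul_apply, hv, map_zero,
      smul_zero, zero_sub, neg_eq_zero] at this
    exact this
  -- key claim
  have key : ∀ k : ℕ, (∃ v : V, v ≠ 0 ∧ R v = 0 ∧ (R ^ k) ((L ^ k) v) = 0) →
      ∃ w : V, w ≠ 0 ∧ R w = 0 ∧ ∃ m : ℕ, y w = (m : K) • w := by
    intro k
    induction k with
    | zero =>
      rintro ⟨v, hv, -, h0⟩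
      simp at h0
      exact absurd h0 hv
    | succ k ih =>
      rintro ⟨v, hv, hRv, h0⟩
      rw [pow_succ, Module.End.mul_apply, R_L_pow hL hRL k v hRv, map_smul] at h0
      have hc : (-4 * (k + 1) : K) ≠ 0 := by
        have : (k : K) + 1 ≠ 0 := Nat.cast_add_one_ne_zero k
        exact mul_ne_zero (by norm_num) this
      have h1 := (smul_eq_zero.mp h0).resolve_left hc
      by_cases hz : y v - (k : K) • v = 0
      · exact ⟨v, hv, hRv, k, sub_eq_zero.mp hz⟩
      · refine ih ⟨_, hz, ?_, h1⟩
        rw [map_sub, map_smul, hRv, smul_zero, sub_zero]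
        exact hstab v hRv
  obtain ⟨v, hv, hRv⟩ := hker
  exact key N ⟨v, hv, hRv, by rw [hN]; simp⟩

/-- The three-dimensional irreducible module. -/
theorem exists_basis_three [FiniteDimensional K V] (hdim : finrank K V = 3)
    (hL : y * L - L * y = -(2 • L)) (hR : y * R - R * y = 2 • R)
    (hRL : R * L - L * R = -(4 • y))
    (hirr : ∀ W : Submodule K V, (∀ v ∈ W, y v ∈ W) → (∀ v ∈ W, L v ∈ W) → (∀ v ∈ W, R v ∈ W) →
      W = ⊥ ∨ W = ⊤) :
    ∃ b : Basis (Fin 3) K V, y (b 0) = (2 : K) • b 0 ∧ y (b 1) = 0 ∧ y (b 2) = (-2 : K) • b 2 ∧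
      L (b 0) = b 1 ∧ L (b 1) = b 2 ∧ L (b 2) = 0 ∧
      R (b 0) = 0 ∧ R (b 1) = (-8 : K) • b 0 ∧ R (b 2) = (-8 : K) • b 1 := by
  haveI : Nontrivial V := Module.nontrivial_of_finrank_pos (R := K) (by omega)
  obtain ⟨w, hw, hRw, m, hyw⟩ := exists_primitive hL hR hRL
  have hy : ∀ k : ℕ, y ((L ^ k) w) = ((m : K) - 2 * k) • (L ^ k) w := by
    intro k
    rw [y_L_pow hL, hyw, map_smul, ← sub_smul]
  have hRk : ∀ k : ℕ, R ((L ^ (k + 1)) w) = (-4 * (k + 1) * (m - k) : K) • (L ^ k) w := by
    intro k
    rw [R_L_pow hL hRL k w hRw, hyw, ← sub_smul, map_smul, smul_smul]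
  have hL3 : (L ^ 3) w = 0 := by
    by_contra h3
    have hne : ∀ k : Fin 4, (L ^ (k : ℕ)) w ≠ 0 := by
      intro k h0
      apply h3
      have : (3 : ℕ) = (3 - (k : ℕ)) + k := by omega
      rw [this, pow_add, Module.End.mul_apply, h0, map_zero]
    have hli : LinearIndependent K (fun k : Fin 4 => (L ^ (k : ℕ)) w) := by
      refine End.eigenvectors_linearIndependent' y (fun k : Fin 4 => ((m : K) - 2 * (k : ℕ))) ?_ _ ?_
      · intro a b hab
        simp only [sub_right_inj, mul_eq_mul_left_iff, Nat.cast_inj, OfNat.ofNat_ne_zero,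
          or_false] at hab
        exact Fin.ext hab
      · intro k
        exact ⟨End.mem_eigenspace_iff.mpr (hy k), hne k⟩
    have := hli.fintype_card_le_finrank
    rw [hdim] at this
    simp at this
  let e : Fin 3 → V := ![w, L w, L (L w)]
  have hspan : (⊤ : Submodule K V) ≤ Submodule.span K (Set.range e) := by
    have hmem : ∀ i, e i ∈ Submodule.span K (Set.range e) := fun i => Submodule.subset_span ⟨i, rfl⟩
    have hstab : ∀ T : End K V, (∀ i, T (e i) ∈ Submodule.span K (Set.range e)) →
        ∀ v ∈ Submodule.span K (Set.range e), T v ∈ Submodule.span K (Set.range e) := by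
      intro T hT v hv
      have : Submodule.span K (Set.range e) ≤ (Submodule.span K (Set.range e)).comap T := by
        rw [Submodule.span_le]
        rintro _ ⟨i, rfl⟩
        exact hT i
      exact this hv
    have h := hirr (Submodule.span K (Set.range e)) (hstab y ?_) (hstab L ?_) (hstab R ?_)
    · rcases h with h | h
      · exfalso
        have : e 0 ∈ Submodule.span K (Set.range e) := hmem 0
        rw [h, Submodule.mem_bot] at this
        exact hw this
      · rw [h]
    · intro i
      fin_cases i
      · have := hy 0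
        simp only [pow_zero, Module.End.one_apply] at this
        change y w ∈ _
        rw [this]
        exact Submodule.smul_mem _ _ (hmem 0)
      · have := hy 1
        simp only [pow_one] at this
        change y (L w) ∈ _
        rw [this]
        exact Submodule.smul_mem _ _ (hmem 1)
      · have := hy 2
        simp only [pow_two, Module.End.mul_apply] at this
        change y (L (L w)) ∈ _
        rw [this]
        exact Submodule.smul_mem _ _ (hmem 2)
    · intro i
      fin_cases i
      · exact hmem 1
      · exact hmem 2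
      · change L (L (L w)) ∈ _
        have : L (L (L w)) = (L ^ 3) w := by simp [pow_succ, Module.End.mul_apply]
        rw [this, hL3]
        exact Submodule.zero_mem _
    · intro i
      fin_cases i
      · change R w ∈ _
        rw [hRw]
        exact Submodule.zero_mem _
      · have := hRk 0
        simp only [zero_add, pow_one, pow_zero, Module.End.one_apply] at this
        change R (L w) ∈ _
        rw [this]
        exact Submodule.smul_mem _ _ (hmem 0)
      · have := hRk 1
        simp only [Nat.reduceAdd, pow_two, Module.End.mul_apply, pow_one] at this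
        change R (L (L w)) ∈ _
        rw [this]
        exact Submodule.smul_mem _ _ (hmem 1)
  let b : Basis (Fin 3) K V := basisOfTopLeSpanOfCardEqFinrank e hspan (by simp [hdim])
  have hb : ∀ i, b i = e i := fun i => by
    simp only [b, coe_basisOfTopLeSpanOfCardEqFinrank]
  have hb0 : b 0 = w := hb 0
  have hb1 : b 1 = L w := hb 1
  have hb2 : b 2 = L (L w) := hb 2
  have y0 : y (b 0) = (m : K) • b 0 := by rw [hb0]; simpa using hy 0
  have y1 : y (b 1) = ((m : K) - 2) • b 1 := by rw [hb1]; simpa using hy 1
  have y2 : y (b 2) = ((m : K) - 4) • b 2 := by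
    rw [hb2]
    have := hy 2
    simp only [pow_two, Module.End.mul_apply] at this
    rw [this]
    congr 1
    push_cast
    ring
  -- trace of `y` is zero
  have htr : (m : K) = 2 := by
    have h1 : LinearMap.trace K V y = 0 := by
      have h2 : LinearMap.trace K V (R * L - L * R) = 0 := by
        rw [map_sub, LinearMap.trace_mul_comm, sub_self]
      rw [hRL, map_neg, neg_eq_zero, ← Nat.cast_smul_eq_nsmul K, map_smul, smul_eq_mul] at h2
      exact (mul_eq_zero.mp h2).resolve_left (by norm_num)
    rw [LinearMap.trace_eq_matrix_trace K b, Matrix.trace, Fin.sum_univ_three] at h1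
    simp only [Matrix.diag_apply, LinearMap.toMatrix_apply, y0, y1, y2, map_smul,
      Finsupp.smul_apply, Basis.repr_self, Finsupp.single_eq_same, smul_eq_mul, mul_one] at h1
    have h3 : (3 : K) * (m - 2) = 0 := by linear_combination h1
    have h4 := (mul_eq_zero.mp h3).resolve_left (by norm_num)
    exact sub_eq_zero.mp h4
  refine ⟨b, ?_, ?_, ?_, ?_, ?_, ?_, ?_, ?_, ?_⟩
  · rw [y0, htr]
  · rw [y1, htr]; simp
  · rw [y2, htr]; congr 1; ring
  · rw [hb0, hb1]
  · rw [hb1, hb2]
  · rw [hb2]
    have : L (L (L w)) = (L ^ 3) w := by simp [pow_succ, Module.End.mul_apply]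
    rw [this, hL3]
  · rw [hb0, hRw]
  · rw [hb0, hb1]
    have := hRk 0
    simp only [zero_add, pow_one, pow_zero, Module.End.one_apply] at this
    rw [this, htr]
    congr 1
    push_cast
    ring
  · rw [hb1, hb2]
    have := hRk 1
    simp only [Nat.reduceAdd, pow_two, Module.End.mul_apply, pow_one] at this
    rw [this, htr]
    congr 1
    push_cast
    ring

end Pool.Agent.Lib_MP_d63bef_al
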