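import Pool.Agent.Lib_MP_d63bef_al.Defs
import Pool.Agent.Lib_MP_d63bef_al.Sl2
import Pool.Agent.Lib_MP_d63bef_al.Cases

namespace Pool.Agent.Lib_MP_d63bef_al

open Module Matrix

variable {K : Type*} [Field K] [CharZero K]

/-- the matrix of the first operator -/
def matA (K : Type*) [Field K] : Matrix (Fin 3) (Fin 3) K := !![0, 0, 0; 1, 1, 0; 0, 1, 4]

/-- the matrix of the second operator -/
def matB (φ : K) : Matrix (Fin 3) (Fin 3) K := !![0, φ, 0; 0, 1, φ - 8; 0, 0, 4]

theorem toMatrix_eq {V : Type*} [AddCommGroup V] [Module K V] (b : Basis (Fin 3) K V)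
    (T : End K V) (M : Matrix (Fin 3) (Fin 3) K)
    (h : ∀ j, T (b j) = M 0 j • b 0 + M 1 j • b 1 + M 2 j • b 2) :
    LinearMap.toMatrix b b T = M := by
  ext i j
  rw [LinearMap.toMatrix_apply, h j]
  fin_cases i <;> simp [Basis.repr_self, Finsupp.single_apply]

/-- basis from three vectors with nonzero determinant -/
theorem exists_basis_of_det (P : Matrix (Fin 3) (Fin 3) K) (h : P.det ≠ 0) :
    ∃ b : Basis (Fin 3) K (Fin 3 → K), ∀ i, b i = P i := by
  have hli : LinearIndependent K (fun i => P i) := Matrix.linearIndependent_rows_of_det_ne_zero h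
  refine ⟨basisOfLinearIndependentOfCardEqFinrank hli (by simp), fun i => ?_⟩
  rw [coe_basisOfLinearIndependentOfCardEqFinrank]

theorem sum_form {V : Type*} [AddCommGroup V] [Module K V] (b : Basis (Fin 3) K V)
    (w : V) (c : Fin 3 → K) (h : w = c 0 • b 0 + c 1 • b 1 + c 2 • b 2) :
    w = ∑ i, c i • b i := by
  rw [h, Fin.sum_univ_three]

theorem isLeonardPair (φ : K) (h0 : φ ≠ 0) (h8 : φ - 8 ≠ 0) (h4 : φ + 4 ≠ 0) :
    IsLeonardPair 2 (Matrix.toLin' (matA K)) (Matrix.toLin' (matB φ)) := by
  constructor
  · -- eigenbasis of the second operator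
    obtain ⟨b, hb⟩ := exists_basis_of_det
      (!![1, 0, 0; φ, 1, 0; φ * (φ - 8), 4 * (φ - 8), 12] : Matrix (Fin 3) (Fin 3) K)
      (by simp [Matrix.det_fin_three])
    refine ⟨b, fun k => if k = 0 then 0 else if k = 1 then 1 else 4,
      ⟨!![-φ, -(3 / 4) * φ * (φ + 4), 0;
           1, (2 * φ + 11) / 3, -((φ - 8) / 3) * (φ + 4);
           0, 1 / 12, (φ + 4) / 3], ⟨?_, ?_⟩, ?_⟩, ?_⟩
    · intro i j hij
      fin_cases i <;> fin_cases j <;> simp at hij ⊢
    · intro i j hij
      fin_cases i <;> fin_cases j <;> simp [h0, h8, h4] at hij ⊢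
    · intro j
      apply sum_form
      simp only [hb]
      ext i
      fin_cases j <;> fin_cases i <;>
        simp [matA, Matrix.mulVec, dotProduct, Fin.sum_univ_three] <;> ring
    · intro j
      simp only [hb]
      ext i
      fin_cases j <;> fin_cases i <;>
        simp [matB, Matrix.mulVec, dotProduct, Fin.sum_univ_three] <;> ring
  · obtain ⟨b, hb⟩ := exists_basis_of_det
      (!![4, -4, 1; 0, 3, -1; 0, 0, 1] : Matrix (Fin 3) (Fin 3) K)
      (by simp [Matrix.det_fin_three])
    refine ⟨b, fun k => if k = 0 then 0 else if k = 1 then 1 else 4,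
      ⟨!![-φ, 3 / 4 * φ, 0;
           -(φ + 4), (2 * φ + 11) / 3, (φ - 8) / 3;
           0, -(φ + 4) / 12, (φ + 4) / 3], ⟨?_, ?_⟩, ?_⟩, ?_⟩
    · intro i j hij
      fin_cases i <;> fin_cases j <;> simp at hij ⊢
    · intro i j hij
      have h4' : ¬ (4 : K) = -φ := fun h => h4 (by rw [h]; ring)
      fin_cases i <;> fin_cases j <;> simp [h0, h8, h4', neg_add_eq_zero] at hij ⊢
    · intro j
      apply sum_form
      simp only [hb]
      ext i
      fin_cases j <;> fin_cases i <;>
        simp [matB, Matrix.mulVec, dotProduct, Fin.sum_univ_three] <;> ring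
    · intro j
      simp only [hb]
      ext i
      fin_cases j <;> fin_cases i <;>
        simp [matA, Matrix.mulVec, dotProduct, Fin.sum_univ_three] <;> ring

theorem perm_of_power_sums (x y z : K) (e1 : x + y + z = 5) (e2 : x ^ 2 + y ^ 2 + z ^ 2 = 17)
    (e3 : x ^ 3 + y ^ 3 + z ^ 3 = 65) :
    (x = 0 ∧ y = 1 ∧ z = 4) ∨ (x = 0 ∧ y = 4 ∧ z = 1) ∨ (x = 1 ∧ y = 0 ∧ z = 4) ∨
      (x = 1 ∧ y = 4 ∧ z = 0) ∨ (x = 4 ∧ y = 0 ∧ z = 1) ∨ (x = 4 ∧ y = 1 ∧ z = 0) := by
  obtain rfl : z = 5 - x - y := by linear_combination e1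
  have hxyz : x * y * (5 - x - y) = 0 := by linear_combination (1 / 3 : K) * e3 - (5 / 2 : K) * e2
  have hx : x * ((x - 1) * (x - 4)) = 0 := by linear_combination (1 / 2 * x) * e2 + hxyz
  have hy : y * ((y - 1) * (y - 4)) = 0 := by linear_combination (1 / 2 * y) * e2 + hxyz
  have hx' : x = 0 ∨ x = 1 ∨ x = 4 := by
    rcases mul_eq_zero.mp hx with h | h
    · exact Or.inl h
    · rcases mul_eq_zero.mp h with h | h
      · exact Or.inr (Or.inl (sub_eq_zero.mp h))
      · exact Or.inr (Or.inr (sub_eq_zero.mp h))
  have hy' : y = 0 ∨ y = 1 ∨ y = 4 := by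
    rcases mul_eq_zero.mp hy with h | h
    · exact Or.inl h
    · rcases mul_eq_zero.mp h with h | h
      · exact Or.inr (Or.inl (sub_eq_zero.mp h))
      · exact Or.inr (Or.inr (sub_eq_zero.mp h))
  rcases hx' with rfl | rfl | rfl <;> rcases hy' with rfl | rfl | rfl <;> norm_num at e2 <;> norm_num

theorem trace_toMatrix (b : Basis (Fin 3) K (Fin 3 → K)) (T : End K (Fin 3 → K)) :
    (LinearMap.toMatrix b b T).trace = (LinearMap.toMatrix' T).trace := by
  rw [← LinearMap.trace_eq_matrix_trace K b T, LinearMap.trace_eq_matrix_trace K (Pi.basisFun K (Fin 3)) T,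
    LinearMap.toMatrix_eq_toMatrix']

theorem main (δ : K) (hsq : ¬ IsSquare δ) :
    ¬ HasSl2Form (Matrix.toLin' (matA K)) (Matrix.toLin' (matB ((δ - 9) / 2))) := by
  rintro ⟨x, y, z, ⟨hxy, hyz, hzx, -, hirr⟩, ⟨a0, a1, a2, a3, hA⟩, ⟨c0, c1, c2, c3, hB⟩⟩
  obtain ⟨b, y0, y1, y2, l0, l1, l2, r0, r1, r2⟩ := exists_basis_three (K := K)
    (V := Fin 3 → K) (y := y) (L := x + y) (R := y + z) (by simp)
    (by
      refine LinearMap.ext fun v => ?_
      have := hxy v
      simp only [LinearMap.sub_apply, Module.End.mul_apply, LinearMap.add_apply,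
        LinearMap.neg_apply, LinearMap.smul_apply, map_add]
      have e : y (x v) + y (y v) - (x (y v) + y (y v)) = -(x (y v) - y (x v)) := by abel
      rw [e, this]
      module)
    (by
      refine LinearMap.ext fun v => ?_
      have := hyz v
      simp only [LinearMap.sub_apply, Module.End.mul_apply, LinearMap.add_apply,
        LinearMap.neg_apply, LinearMap.smul_apply, map_add]
      have e : y (y v) + y (z v) - (y (y v) + z (y v)) = y (z v) - z (y v) := by abel
      rw [e, this]
      module)
    (by
      refine LinearMap.ext fun v => ?_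
      have h1 := hxy v
      have h2 := hyz v
      have h3 := hzx v
      simp only [LinearMap.sub_apply, Module.End.mul_apply, LinearMap.add_apply,
        LinearMap.neg_apply, LinearMap.smul_apply, map_add]
      have e : y (x v) + y (y v) + (z (x v) + z (y v)) -
          (x (y v) + x (z v) + (y (y v) + y (z v))) =
          -(x (y v) - y (x v)) + (z (x v) - x (z v)) - (y (z v) - z (y v)) := by abel
      first
        | (rw [e, h1, h2, h3]; module)
        | (have e2 : y (x v) + z (x v) + (y (y v) + z (y v)) -
          (x (y v) + y (y v) + (x (z v) + y (z v))) =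
          -(x (y v) - y (x v)) + (z (x v) - x (z v)) - (y (z v) - z (y v)) := by abel
           rw [e2, h1, h2, h3]; module))
    (by
      intro W hy hL hR
      apply hirr W _ hy _
      · intro v hv
        have : x v = (x + y) v - y v := by simp
        rw [this]
        exact W.sub_mem (hL v hv) (hy v hv)
      · intro v hv
        have : z v = (y + z) v - y v := by simp
        rw [this]
        exact W.sub_mem (hR v hv) (hy v hv))
  have x0 : x (b 0) = b 1 - (2 : K) • b 0 := by
    have : x (b 0) = (x + y) (b 0) - y (b 0) := by simp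
    rw [this, l0, y0]
  have x1 : x (b 1) = b 2 := by
    have : x (b 1) = (x + y) (b 1) - y (b 1) := by simp
    rw [this, l1, y1, sub_zero]
  have x2 : x (b 2) = (2 : K) • b 2 := by
    have : x (b 2) = (x + y) (b 2) - y (b 2) := by simp
    rw [this, l2, y2]
    module
  have z0 : z (b 0) = (-2 : K) • b 0 := by
    have : z (b 0) = (y + z) (b 0) - y (b 0) := by simp
    rw [this, r0, y0]
    module
  have z1 : z (b 1) = (-8 : K) • b 0 := by
    have : z (b 1) = (y + z) (b 1) - y (b 1) := by simp
    rw [this, r1, y1, sub_zero]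
  have z2 : z (b 2) = (-8 : K) • b 1 + (2 : K) • b 2 := by
    have : z (b 2) = (y + z) (b 2) - y (b 2) := by simp
    rw [this, r2, y2]
    module
  -- the two matrices in the basis `b`
  obtain ⟨α0, hα0⟩ : ∃ α0, α0 = a0 - 2 * a1 + 2 * a2 - 4 * a3 := ⟨_, rfl⟩
  obtain ⟨α1, hα1⟩ : ∃ α1, α1 = a0 := ⟨_, rfl⟩
  obtain ⟨α2, hα2⟩ : ∃ α2, α2 = a0 + 2 * a1 - 2 * a2 - 4 * a3 := ⟨_, rfl⟩
  obtain ⟨β0, hβ0⟩ : ∃ β0, β0 = c0 + 2 * c1 - 2 * c2 - 4 * c3 := ⟨_, rfl⟩
  obtain ⟨β1, hβ1⟩ : ∃ β1, β1 = c0 := ⟨_, rfl⟩
  obtain ⟨β2, hβ2⟩ : ∃ β2, β2 = c0 - 2 * c1 + 2 * c2 - 4 * c3 := ⟨_, rfl⟩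
  obtain ⟨p, hp⟩ : ∃ p, p = a1 + 2 * a3 := ⟨_, rfl⟩
  obtain ⟨q, hq⟩ : ∃ q, q = a1 := ⟨_, rfl⟩
  obtain ⟨r, hr⟩ : ∃ r, r = -8 * (c2 + 2 * c3) := ⟨_, rfl⟩
  obtain ⟨s, hs⟩ : ∃ s, s = -8 * c2 := ⟨_, rfl⟩
  have hM : LinearMap.toMatrix b b (Matrix.toLin' (matA K)) =
      !![α0, 0, 0; p, α1, 0; 0, q, α2] := by
    apply toMatrix_eq
    intro j
    rw [hA]
    fin_cases j
    · change _ = α0 • b 0 + p • b 1 + (0 : K) • b 2
      simp only [Fin.zero_eta, Fin.mk_one, Fin.reduceFinMk, LinearMap.add_apply,
        LinearMap.smul_apply, Module.End.mul_apply, Module.End.one_apply, map_add, map_smul,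
        map_zero, x0, y0, hα0, hp]
      module
    · change _ = (0 : K) • b 0 + α1 • b 1 + q • b 2
      simp only [Fin.zero_eta, Fin.mk_one, Fin.reduceFinMk, LinearMap.add_apply,
        LinearMap.smul_apply, Module.End.mul_apply, Module.End.one_apply, map_add, map_smul,
        map_zero, x1, y1, hα1, hq]
      module
    · change _ = (0 : K) • b 0 + (0 : K) • b 1 + α2 • b 2
      simp only [Fin.zero_eta, Fin.mk_one, Fin.reduceFinMk, LinearMap.add_apply,
        LinearMap.smul_apply, Module.End.mul_apply, Module.End.one_apply, map_add, map_smul,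
        map_zero, x2, y2, hα2]
      module
  have hN : LinearMap.toMatrix b b (Matrix.toLin' (matB ((δ - 9) / 2))) =
      !![β0, r, 0; 0, β1, s; 0, 0, β2] := by
    apply toMatrix_eq
    intro j
    rw [hB]
    fin_cases j
    · change _ = β0 • b 0 + (0 : K) • b 1 + (0 : K) • b 2
      simp only [Fin.zero_eta, Fin.mk_one, Fin.reduceFinMk, LinearMap.add_apply,
        LinearMap.smul_apply, Module.End.mul_apply, Module.End.one_apply, map_add, map_smul,
        map_zero, z0, y0, hβ0]
      module
    · change _ = r • b 0 + β1 • b 1 + (0 : K) • b 2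
      simp only [Fin.zero_eta, Fin.mk_one, Fin.reduceFinMk, LinearMap.add_apply,
        LinearMap.smul_apply, Module.End.mul_apply, Module.End.one_apply, map_add, map_smul,
        map_zero, z1, y0, y1, hβ1, hr]
      module
    · change _ = (0 : K) • b 0 + s • b 1 + β2 • b 2
      simp only [Fin.zero_eta, Fin.mk_one, Fin.reduceFinMk, LinearMap.add_apply,
        LinearMap.smul_apply, Module.End.mul_apply, Module.End.one_apply, map_add, map_smul,
        map_zero, z2, y1, y2, hβ2, hs]
      module
  -- traces of words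
  have tr : ∀ T : End K (Fin 3 → K),
      (LinearMap.toMatrix b b T).trace = (LinearMap.toMatrix' T).trace := trace_toMatrix b
  have tA := tr (Matrix.toLin' (matA K))
  have tAA := tr (Matrix.toLin' (matA K) * Matrix.toLin' (matA K))
  have tAAA := tr (Matrix.toLin' (matA K) * Matrix.toLin' (matA K) * Matrix.toLin' (matA K))
  have tB := tr (Matrix.toLin' (matB ((δ - 9) / 2)))
  have tBB := tr (Matrix.toLin' (matB ((δ - 9) / 2)) * Matrix.toLin' (matB ((δ - 9) / 2)))
  have tBBB := tr (Matrix.toLin' (matB ((δ - 9) / 2)) * Matrix.toLin' (matB ((δ - 9) / 2)) *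
    Matrix.toLin' (matB ((δ - 9) / 2)))
  have tAB := tr (Matrix.toLin' (matA K) * Matrix.toLin' (matB ((δ - 9) / 2)))
  have tAAB := tr (Matrix.toLin' (matA K) * Matrix.toLin' (matA K) *
    Matrix.toLin' (matB ((δ - 9) / 2)))
  have tABB := tr (Matrix.toLin' (matA K) * Matrix.toLin' (matB ((δ - 9) / 2)) *
    Matrix.toLin' (matB ((δ - 9) / 2)))
  have tAABB := tr (Matrix.toLin' (matA K) * Matrix.toLin' (matA K) *
    Matrix.toLin' (matB ((δ - 9) / 2)) * Matrix.toLin' (matB ((δ - 9) / 2)))
  simp only [LinearMap.toMatrix_mul, LinearMap.toMatrix'_mul, LinearMap.toMatrix'_toLin', hM,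
    hN] at tA tAA tAAA tB tBB tBBB tAB tAAB tABB tAABB
  simp only [matA, matB, Matrix.trace, Fin.sum_univ_three, Matrix.diag_apply, Matrix.mul_apply,
    of_apply, Matrix.cons_val] at tA tAA tAAA tB tBB tBBB tAB tAAB tABB tAABB
  have hα := perm_of_power_sums α0 α1 α2 (by linear_combination tA) (by linear_combination tAA)
    (by linear_combination tAAA)
  have hβ := perm_of_power_sums β0 β1 β2 (by linear_combination tB) (by linear_combination tBB)
    (by linear_combination tBBB)
  have E1 : α0 * β0 + α1 * β1 + α2 * β2 + p * r + q * s = δ := by linear_combination tAB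
  have E2 : α0 ^ 2 * β0 + α1 ^ 2 * β1 + α2 ^ 2 * β2 + (α0 + α1) * (p * r) +
      (α1 + α2) * (q * s) = 3 * δ - 2 := by linear_combination tAAB
  have E3 : α0 * β0 ^ 2 + α1 * β1 ^ 2 + α2 * β2 ^ 2 + (β0 + β1) * (p * r) +
      (β1 + β2) * (q * s) = 3 * δ - 2 := by linear_combination tABB
  have E4 : α0 ^ 2 * β0 ^ 2 + α1 ^ 2 * β1 ^ 2 + α2 ^ 2 * β2 ^ 2 +
      (α0 + α1) * (β0 + β1) * (p * r) + (α1 + α2) * (β1 + β2) * (q * s) + p * r * (q * s) =
      δ ^ 2 / 4 + 9 / 2 * δ - 15 / 4 := by linear_combination tAABB
  have D : 4 * (p * r - q * s) ^ 2 +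
      4 * ((α0 + α2 - 2 * α1) * (β0 + β2 - 2 * β1)) * (p * r + q * s) +
      ((α0 + α2 - 2 * α1) * (β0 + β2 - 2 * β1)) ^ 2 = 1024 * (a1 * c3 - a3 * c2) ^ 2 := by
    rw [hα0, hα1, hα2, hβ0, hβ1, hβ2, hp, hq, hr, hs]
    ring
  generalize p * r = P at *
  generalize q * s = Q at *
  clear tA tAA tAAA tB tBB tBBB tAB tAAB tABB tAABB hM hN
  rcases hα with ⟨i0, i1, i2⟩ | ⟨i0, i1, i2⟩ | ⟨i0, i1, i2⟩ | ⟨i0, i1, i2⟩ | ⟨i0, i1, i2⟩ | ⟨i0, i1, i2⟩
  · rcases hβ with ⟨j0, j1, j2⟩ | ⟨j0, j1, j2⟩ | ⟨j0, j1, j2⟩ | ⟨j0, j1, j2⟩ | ⟨j0, j1, j2⟩ | ⟨j0, j1, j2⟩ <;>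
      rw [i0, i1, i2, j0, j1, j2] at E1 E2 E3 E4 D
    · exact case_0_0 δ P Q a1 a3 c2 c3 hsq (by linear_combination E1) (by linear_combination E2)
        (by linear_combination E3) (by linear_combination E4) (by linear_combination D)
    · exact case_0_1 δ P Q a1 a3 c2 c3 hsq (by linear_combination E1) (by linear_combination E2)
        (by linear_combination E3) (by linear_combination E4) (by linear_combination D)
    · exact case_0_2 δ P Q a1 a3 c2 c3 hsq (by linear_combination E1) (by linear_combination E2)
        (by linear_combination E3) (by linear_combination E4) (by linear_combination D)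
    · exact case_0_3 δ P Q a1 a3 c2 c3 hsq (by linear_combination E1) (by linear_combination E2)
        (by linear_combination E3) (by linear_combination E4) (by linear_combination D)
    · exact case_0_4 δ P Q a1 a3 c2 c3 hsq (by linear_combination E1) (by linear_combination E2)
        (by linear_combination E3) (by linear_combination E4) (by linear_combination D)
    · exact case_0_5 δ P Q a1 a3 c2 c3 hsq (by linear_combination E1) (by linear_combination E2)
        (by linear_combination E3) (by linear_combination E4) (by linear_combination D)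
  · rcases hβ with ⟨j0, j1, j2⟩ | ⟨j0, j1, j2⟩ | ⟨j0, j1, j2⟩ | ⟨j0, j1, j2⟩ | ⟨j0, j1, j2⟩ | ⟨j0, j1, j2⟩ <;>
      rw [i0, i1, i2, j0, j1, j2] at E1 E2 E3 E4 D
    · exact case_1_0 δ P Q a1 a3 c2 c3 hsq (by linear_combination E1) (by linear_combination E2)
        (by linear_combination E3) (by linear_combination E4) (by linear_combination D)
    · exact case_1_1 δ P Q a1 a3 c2 c3 hsq (by linear_combination E1) (by linear_combination E2)
        (by linear_combination E3) (by linear_combination E4) (by linear_combination D)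
    · exact case_1_2 δ P Q a1 a3 c2 c3 hsq (by linear_combination E1) (by linear_combination E2)
        (by linear_combination E3) (by linear_combination E4) (by linear_combination D)
    · exact case_1_3 δ P Q a1 a3 c2 c3 hsq (by linear_combination E1) (by linear_combination E2)
        (by linear_combination E3) (by linear_combination E4) (by linear_combination D)
    · exact case_1_4 δ P Q a1 a3 c2 c3 hsq (by linear_combination E1) (by linear_combination E2)
        (by linear_combination E3) (by linear_combination E4) (by linear_combination D)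
    · exact case_1_5 δ P Q a1 a3 c2 c3 hsq (by linear_combination E1) (by linear_combination E2)
        (by linear_combination E3) (by linear_combination E4) (by linear_combination D)
  · rcases hβ with ⟨j0, j1, j2⟩ | ⟨j0, j1, j2⟩ | ⟨j0, j1, j2⟩ | ⟨j0, j1, j2⟩ | ⟨j0, j1, j2⟩ | ⟨j0, j1, j2⟩ <;>
      rw [i0, i1, i2, j0, j1, j2] at E1 E2 E3 E4 D
    · exact case_2_0 δ P Q a1 a3 c2 c3 hsq (by linear_combination E1) (by linear_combination E2)
        (by linear_combination E3) (by linear_combination E4) (by linear_combination D)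
    · exact case_2_1 δ P Q a1 a3 c2 c3 hsq (by linear_combination E1) (by linear_combination E2)
        (by linear_combination E3) (by linear_combination E4) (by linear_combination D)
    · exact case_2_2 δ P Q a1 a3 c2 c3 hsq (by linear_combination E1) (by linear_combination E2)
        (by linear_combination E3) (by linear_combination E4) (by linear_combination D)
    · exact case_2_3 δ P Q a1 a3 c2 c3 hsq (by linear_combination E1) (by linear_combination E2)
        (by linear_combination E3) (by linear_combination E4) (by linear_combination D)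
    · exact case_2_4 δ P Q a1 a3 c2 c3 hsq (by linear_combination E1) (by linear_combination E2)
        (by linear_combination E3) (by linear_combination E4) (by linear_combination D)
    · exact case_2_5 δ P Q a1 a3 c2 c3 hsq (by linear_combination E1) (by linear_combination E2)
        (by linear_combination E3) (by linear_combination E4) (by linear_combination D)
  · rcases hβ with ⟨j0, j1, j2⟩ | ⟨j0, j1, j2⟩ | ⟨j0, j1, j2⟩ | ⟨j0, j1, j2⟩ | ⟨j0, j1, j2⟩ | ⟨j0, j1, j2⟩ <;>
      rw [i0, i1, i2, j0, j1, j2] at E1 E2 E3 E4 D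
    · exact case_3_0 δ P Q a1 a3 c2 c3 hsq (by linear_combination E1) (by linear_combination E2)
        (by linear_combination E3) (by linear_combination E4) (by linear_combination D)
    · exact case_3_1 δ P Q a1 a3 c2 c3 hsq (by linear_combination E1) (by linear_combination E2)
        (by linear_combination E3) (by linear_combination E4) (by linear_combination D)
    · exact case_3_2 δ P Q a1 a3 c2 c3 hsq (by linear_combination E1) (by linear_combination E2)
        (by linear_combination E3) (by linear_combination E4) (by linear_combination D)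
    · exact case_3_3 δ P Q a1 a3 c2 c3 hsq (by linear_combination E1) (by linear_combination E2)
        (by linear_combination E3) (by linear_combination E4) (by linear_combination D)
    · exact case_3_4 δ P Q a1 a3 c2 c3 hsq (by linear_combination E1) (by linear_combination E2)
        (by linear_combination E3) (by linear_combination E4) (by linear_combination D)
    · exact case_3_5 δ P Q a1 a3 c2 c3 hsq (by linear_combination E1) (by linear_combination E2)
        (by linear_combination E3) (by linear_combination E4) (by linear_combination D)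
  · rcases hβ with ⟨j0, j1, j2⟩ | ⟨j0, j1, j2⟩ | ⟨j0, j1, j2⟩ | ⟨j0, j1, j2⟩ | ⟨j0, j1, j2⟩ | ⟨j0, j1, j2⟩ <;>
      rw [i0, i1, i2, j0, j1, j2] at E1 E2 E3 E4 D
    · exact case_4_0 δ P Q a1 a3 c2 c3 hsq (by linear_combination E1) (by linear_combination E2)
        (by linear_combination E3) (by linear_combination E4) (by linear_combination D)
    · exact case_4_1 δ P Q a1 a3 c2 c3 hsq (by linear_combination E1) (by linear_combination E2)
        (by linear_combination E3) (by linear_combination E4) (by linear_combination D)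
    · exact case_4_2 δ P Q a1 a3 c2 c3 hsq (by linear_combination E1) (by linear_combination E2)
        (by linear_combination E3) (by linear_combination E4) (by linear_combination D)
    · exact case_4_3 δ P Q a1 a3 c2 c3 hsq (by linear_combination E1) (by linear_combination E2)
        (by linear_combination E3) (by linear_combination E4) (by linear_combination D)
    · exact case_4_4 δ P Q a1 a3 c2 c3 hsq (by linear_combination E1) (by linear_combination E2)
        (by linear_combination E3) (by linear_combination E4) (by linear_combination D)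
    · exact case_4_5 δ P Q a1 a3 c2 c3 hsq (by linear_combination E1) (by linear_combination E2)
        (by linear_combination E3) (by linear_combination E4) (by linear_combination D)
  · rcases hβ with ⟨j0, j1, j2⟩ | ⟨j0, j1, j2⟩ | ⟨j0, j1, j2⟩ | ⟨j0, j1, j2⟩ | ⟨j0, j1, j2⟩ | ⟨j0, j1, j2⟩ <;>
      rw [i0, i1, i2, j0, j1, j2] at E1 E2 E3 E4 D
    · exact case_5_0 δ P Q a1 a3 c2 c3 hsq (by linear_combination E1) (by linear_combination E2)
        (by linear_combination E3) (by linear_combination E4) (by linear_combination D)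
    · exact case_5_1 δ P Q a1 a3 c2 c3 hsq (by linear_combination E1) (by linear_combination E2)
        (by linear_combination E3) (by linear_combination E4) (by linear_combination D)
    · exact case_5_2 δ P Q a1 a3 c2 c3 hsq (by linear_combination E1) (by linear_combination E2)
        (by linear_combination E3) (by linear_combination E4) (by linear_combination D)
    · exact case_5_3 δ P Q a1 a3 c2 c3 hsq (by linear_combination E1) (by linear_combination E2)
        (by linear_combination E3) (by linear_combination E4) (by linear_combination D)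
    · exact case_5_4 δ P Q a1 a3 c2 c3 hsq (by linear_combination E1) (by linear_combination E2)
        (by linear_combination E3) (by linear_combination E4) (by linear_combination D)
    · exact case_5_5 δ P Q a1 a3 c2 c3 hsq (by linear_combination E1) (by linear_combination E2)
        (by linear_combination E3) (by linear_combination E4) (by linear_combination D)
end Pool.Agent.Lib_MP_d63bef_al
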